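import Mathlib

/-!
# Reduction to fields of degree prime to p
-/

set_option autoImplicit false

namespace Pool.Agent.Q49.MU

/-- `X` holds for subfields. -/
def Mono (X : (F : Type) → [Field F] → Prop) : Prop :=
  ∀ (F L : Type) [Field F] [Field L] [NumberField F] [NumberField L] [Algebra F L], X L → X F

/-- `X` passes to Galois extensions of `p`-power degree of the fields which contain `K₁`. -/
def PExt (p : ℕ) (X : (F : Type) → [Field F] → Prop) (K₁ : Type) [Field K₁] : Prop :=
  ∀ (F L : Type) [Field F] [Field L] [NumberField F] [NumberField L] [Algebra K₁ F] [Algebra F L],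
    IsGalois F L → IsPGroup p (L ≃ₐ[F] L) → X F → X L

theorem exists_galois_aux (k₀ Ω F K₁ : Type) [Field k₀] [Field Ω] [Algebra k₀ Ω] [IsAlgClosure k₀ Ω]
    [PerfectField k₀] [Field F] [Field K₁] [Algebra k₀ F] [Algebra k₀ K₁] [FiniteDimensional k₀ F]
    [FiniteDimensional k₀ K₁] :
    ∃ L : IntermediateField k₀ Ω, FiniteDimensional k₀ L ∧ IsGalois k₀ L ∧
      Nonempty (F →ₐ[k₀] L) ∧ Nonempty (K₁ →ₐ[k₀] L) := by
  have : IsAlgClosed Ω := IsAlgClosure.isAlgClosed k₀
  let i : F →ₐ[k₀] Ω := IsAlgClosed.lift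
  let j : K₁ →ₐ[k₀] Ω := IsAlgClosed.lift
  have h1 : FiniteDimensional k₀ i.fieldRange :=
    LinearMap.finiteDimensional_range i.toLinearMap
  have h2 : FiniteDimensional k₀ j.fieldRange :=
    LinearMap.finiteDimensional_range j.toLinearMap
  have h3 : FiniteDimensional k₀ (i.fieldRange ⊔ j.fieldRange : IntermediateField k₀ Ω) :=
    IntermediateField.finiteDimensional_sup _ _
  have h0 : Normal k₀ Ω := IsAlgClosure.normal k₀ Ω
  have hML : (i.fieldRange ⊔ j.fieldRange : IntermediateField k₀ Ω) ≤
      IntermediateField.normalClosure k₀ (i.fieldRange ⊔ j.fieldRange : IntermediateField k₀ Ω) Ω :=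
    IntermediateField.le_normalClosure _
  have h6 : Normal k₀ (IntermediateField.normalClosure k₀
      (i.fieldRange ⊔ j.fieldRange : IntermediateField k₀ Ω) Ω) := inferInstance
  have h8 : Algebra.IsSeparable k₀ (IntermediateField.normalClosure k₀
      (i.fieldRange ⊔ j.fieldRange : IntermediateField k₀ Ω) Ω) := inferInstance
  refine ⟨IntermediateField.normalClosure k₀ (i.fieldRange ⊔ j.fieldRange : IntermediateField k₀ Ω) Ω,
    inferInstance, { to_isSeparable := h8, to_normal := h6 }, ⟨?_⟩, ⟨?_⟩⟩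
  · exact (IntermediateField.inclusion (le_sup_left.trans hML)).comp i.rangeRestrict
  · exact (IntermediateField.inclusion (le_sup_right.trans hML)).comp j.rangeRestrict

theorem exists_galois_aux' (k₀ F K₁ : Type) [Field k₀] [PerfectField k₀] [Field F] [Field K₁]
    [Algebra k₀ F] [Algebra k₀ K₁] [FiniteDimensional k₀ F] [FiniteDimensional k₀ K₁] :
    ∃ (L : Type) (_ : Field L) (_ : Algebra k₀ L) (_ : FiniteDimensional k₀ L) (_ : Algebra F L)
      (_ : Algebra K₁ L), IsGalois K₁ L := by
  obtain ⟨L, h1, h2, ⟨a⟩, ⟨b⟩⟩ := exists_galois_aux k₀ (AlgebraicClosure k₀) F K₁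
  let _ : Algebra F L := (a : F →+* L).toAlgebra
  let _ : Algebra K₁ L := (b : K₁ →+* L).toAlgebra
  have : IsScalarTower k₀ K₁ L := IsScalarTower.of_algebraMap_eq fun x => (b.commutes x).symm
  exact ⟨L, inferInstance, inferInstance, h1, inferInstance, inferInstance,
    IsGalois.tower_top_of_isGalois k₀ K₁ L⟩

/-- There is a number field which contains `F`, and which is a Galois extension of `K₁`. -/
theorem exists_galois (F K₁ : Type) [Field F] [Field K₁] [NumberField F] [NumberField K₁] :
    ∃ (L : Type) (_ : Field L) (_ : NumberField L) (_ : Algebra F L) (_ : Algebra K₁ L),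
      IsGalois K₁ L := by
  obtain ⟨L, h1, h2, h3, h4, h5, h6⟩ := exists_galois_aux' ℚ F K₁
  exact ⟨L, h1, NumberField.of_module_finite ℚ L, h4, h5, h6⟩

/-- **Reduction to fields of degree prime to `p`**, inside a class `C` of number fields. -/
theorem of_prime_to_p_class (p : ℕ) [Fact p.Prime] {C X : (F : Type) → [Field F] → Prop}
    (sub : ∀ (F L : Type) [Field F] [Field L] [NumberField F] [NumberField L] [Algebra F L],
      C L → C F)
    (closed : ∀ (F K : Type) [Field F] [Field K] [NumberField F] [NumberField K], C F → C K →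
      ∃ (L : Type) (_ : Field L) (_ : NumberField L) (_ : Algebra F L) (_ : Algebra K L),
        IsGalois K L ∧ C L)
    (hm : ∀ (F L : Type) [Field F] [Field L] [NumberField F] [NumberField L] [Algebra F L],
      C L → X L → X F)
    (K₁ : Type) [Field K₁] [NumberField K₁] (hK₁ : C K₁)
    (hp : ∀ (F L : Type) [Field F] [Field L] [NumberField F] [NumberField L] [Algebra K₁ F]
      [Algebra F L], IsGalois F L → IsPGroup p (L ≃ₐ[F] L) → C L → X F → X L)
    (h : ∀ (K : Type) [Field K] [NumberField K] [Algebra K₁ K], C K →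
      ¬ p ∣ Module.finrank K₁ K → X K)
    (F : Type) [Field F] [NumberField F] (hF : C F) : X F := by
  obtain ⟨L, _, _, _, _, hG, hL⟩ := closed F K₁ hF hK₁
  have hfin : FiniteDimensional K₁ L := by
    have : IsScalarTower ℚ K₁ L := IsScalarTower.of_algebraMap_eq fun x => by simp
    exact Module.Finite.of_restrictScalars_finite ℚ K₁ L
  obtain ⟨P⟩ : Nonempty (Sylow p (L ≃ₐ[K₁] L)) := inferInstance
  let k := IntermediateField.fixedField (P : Subgroup (L ≃ₐ[K₁] L))
  have hk : NumberField k := NumberField.of_module_finite K₁ k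
  have hrank : Module.finrank K₁ k = (P : Subgroup (L ≃ₐ[K₁] L)).index := by
    have h1 := Module.finrank_mul_finrank K₁ k L
    have h2 : Module.finrank k L = Nat.card (P : Subgroup (L ≃ₐ[K₁] L)) :=
      IntermediateField.finrank_fixedField_eq_card _
    have h3 : Nat.card (L ≃ₐ[K₁] L) = Module.finrank K₁ L := IsGalois.card_aut_eq_finrank K₁ L
    have h4 := (P : Subgroup (L ≃ₐ[K₁] L)).card_mul_index
    rw [h3, ← h1, h2, mul_comm (Module.finrank K₁ k)] at h4
    exact (Nat.eq_of_mul_eq_mul_left Nat.card_pos h4).symm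
  have hdvd : ¬ p ∣ Module.finrank K₁ k := by
    rw [hrank]
    exact Sylow.not_dvd_index P
  have hgal : IsGalois k L := inferInstance
  have hX := h k (sub k L hL) hdvd
  have hX2 : X L := by
    refine hp k L hgal ?_ hL hX
    have e : (P : Subgroup (L ≃ₐ[K₁] L)) ≃* (L ≃ₐ[k] L) :=
      IntermediateField.subgroupEquivAlgEquiv _
    exact IsPGroup.of_equiv P.isPGroup' e
  exact hm F L hL hX2

/-- **Reduction to fields of degree prime to `p`.** -/
theorem of_prime_to_p (p : ℕ) [Fact p.Prime] {X : (F : Type) → [Field F] → Prop} (hm : Mono X)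
    (K₁ : Type) [Field K₁] [NumberField K₁] (hp : PExt p X K₁)
    (h : ∀ (K : Type) [Field K] [NumberField K] [Algebra K₁ K], ¬ p ∣ Module.finrank K₁ K → X K)
    (F : Type) [Field F] [NumberField F] : X F :=
  of_prime_to_p_class p (C := fun _ => True) (X := X) (fun _ _ _ _ _ _ _ _ => trivial)
    (fun F K _ _ _ _ _ _ => by
      obtain ⟨L, h1, h2, h3, h4, h5⟩ := exists_galois F K
      exact ⟨L, h1, h2, h3, h4, h5, trivial⟩)
    (fun F L _ _ _ _ _ _ h => hm F L h) K₁ trivial
    (fun F L _ _ _ _ _ _ h1 h2 _ h3 => hp F L h1 h2 h3)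
    (fun K _ _ _ _ h1 => h K h1) F trivial

end Pool.Agent.Q49.MU
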